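import Mathlib
import Pool.Agent.H304Z.NH.Spec

set_option autoImplicit false
set_option linter.unusedSectionVars false

namespace Pool.Agent.H411Z.NH

open Matrix Finset Pool.Agent.H304Z.NH
open scoped Kronecker

section basic

variable {n : Type} [Fintype n] [DecidableEq n]

theorem trace_nsq (x : Mat n) :
    trace (xᴴ * x) = ((∑ j, ∑ i, Complex.normSq (x i j) : ℝ) : ℂ) := by
  simp only [trace, diag_apply, mul_apply, conjTranspose_apply, Complex.star_def]
  push_cast
  refine Finset.sum_congr rfl fun j _ => Finset.sum_congr rfl fun i _ => ?_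
  rw [Complex.normSq_eq_conj_mul_self]

theorem nsq_eq (x : Mat n) : nsq x = ∑ j, ∑ i, Complex.normSq (x i j) := by
  unfold nsq tr
  rw [trace_nsq, Complex.ofReal_re]

theorem trace_nsq' (x : Mat n) : trace (xᴴ * x) = (nsq x : ℂ) := by
  rw [trace_nsq, nsq_eq]

theorem nsq_nonneg (x : Mat n) : 0 ≤ nsq x := by
  rw [nsq_eq]
  exact Finset.sum_nonneg fun j _ => Finset.sum_nonneg fun i _ => Complex.normSq_nonneg _

theorem nsq_neg (x : Mat n) : nsq (-x) = nsq x := by
  simp [nsq_eq]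

theorem nsq_sub_comm (x y : Mat n) : nsq (x - y) = nsq (y - x) := by
  rw [← nsq_neg, neg_sub]

theorem nsq_add_le (a b : Mat n) : nsq (a + b) ≤ 2 * nsq a + 2 * nsq b := by
  simp only [nsq_eq, Finset.mul_sum, ← Finset.sum_add_distrib]
  refine Finset.sum_le_sum fun j _ => Finset.sum_le_sum fun i _ => ?_
  simp only [Matrix.add_apply, Complex.normSq_apply, Complex.add_re, Complex.add_im]
  nlinarith [sq_nonneg ((a i j).re - (b i j).re), sq_nonneg ((a i j).im - (b i j).im)]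

theorem nsq_add4_le (a b c d : Mat n) :
    nsq (a + b + c + d) ≤ 4 * (nsq a + nsq b + nsq c + nsq d) := by
  have h1 := nsq_add_le (a + b) (c + d)
  have h2 := nsq_add_le a b
  have h3 := nsq_add_le c d
  rw [show a + b + c + d = a + b + (c + d) by abel]
  linarith

theorem nsq_U_mul {u : Mat n} (hu : IsU u) (x : Mat n) : nsq (u * x) = nsq x := by
  unfold nsq
  rw [conjTranspose_mul, Matrix.mul_assoc, ← Matrix.mul_assoc uᴴ, hu.1, Matrix.one_mul]

theorem nsq_mul_U {u : Mat n} (hu : IsU u) (x : Mat n) : nsq (x * u) = nsq x := by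
  unfold nsq tr
  rw [conjTranspose_mul, Matrix.mul_assoc, trace_mul_comm, Matrix.mul_assoc, Matrix.mul_assoc,
    hu.2, Matrix.mul_one]

theorem nsq_U {u : Mat n} (hu : IsU u) : nsq u = Fintype.card n := by
  unfold nsq tr
  rw [hu.1]
  simp

theorem IsU_mul {u v : Mat n} (hu : IsU u) (hv : IsU v) : IsU (u * v) := by
  constructor
  · rw [conjTranspose_mul, Matrix.mul_assoc, ← Matrix.mul_assoc uᴴ, hu.1, Matrix.one_mul, hv.1]
  · rw [conjTranspose_mul, Matrix.mul_assoc, ← Matrix.mul_assoc v, hv.2, Matrix.one_mul, hu.2]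

theorem IsU_star {u : Mat n} (hu : IsU u) : IsU uᴴ :=
  ⟨by rw [conjTranspose_conjTranspose]; exact hu.2, by rw [conjTranspose_conjTranspose]; exact hu.1⟩

theorem nsq_sub_one {v : Mat n} (hv : IsU v) :
    nsq (v - 1) = 2 * Fintype.card n - 2 * (trace v).re := by
  unfold nsq tr
  rw [conjTranspose_sub, conjTranspose_one, Matrix.sub_mul, Matrix.mul_sub, Matrix.mul_sub, hv.1]
  simp only [Matrix.mul_one, Matrix.one_mul, trace_sub, trace_one, trace_conjTranspose,
    Complex.sub_re, Complex.natCast_re, Complex.star_def, Complex.conj_re]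
  ring

theorem norm_trace_le {v : Mat n} (hv : IsU v) : ‖trace v‖ ≤ Fintype.card n := by
  have hm : v ∈ Matrix.unitaryGroup n ℂ := Matrix.mem_unitaryGroup_iff.2 hv.2
  calc ‖trace v‖ ≤ ∑ i, ‖v i i‖ := norm_sum_le _ _
    _ ≤ ∑ _i : n, (1 : ℝ) := Finset.sum_le_sum fun i _ => entry_norm_bound_of_unitary hm i i
    _ = _ := by simp

theorem nsq_kron (a b : Mat n) : nsq (a ⊗ₖ b : Mat (n × n)) = nsq a * nsq b := by
  have : trace ((a ⊗ₖ b)ᴴ * (a ⊗ₖ b)) = ((nsq a * nsq b : ℝ) : ℂ) := by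
    rw [conjTranspose_kronecker, ← mul_kronecker_mul, trace_kronecker, trace_nsq', trace_nsq']
    push_cast; rfl
  unfold nsq tr at *
  rw [this, Complex.ofReal_re]

theorem IsU_kron {a : Mat n} (ha : IsU a) : IsU (a ⊗ₖ a : Mat (n × n)) := by
  constructor
  · rw [conjTranspose_kronecker, ← mul_kronecker_mul, ha.1, one_kronecker_one]
  · rw [conjTranspose_kronecker, ← mul_kronecker_mul, ha.2, one_kronecker_one]

end basic

theorem cl : S_CL := by
  classical
  intro G _ T g hg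
  induction hg using Subgroup.closure_induction with
  | mem g hg =>
    refine ⟨∅, 1, zero_le_one, fun n _ _ u _ _ ι _ y ω hω _ => ?_⟩
    have : ∑ i, nsq (cm (u g) (y i)) ≤ ∑ i, en u T (y i) :=
      Finset.sum_le_sum fun i _ => Finset.single_le_sum (f := fun s => nsq (cm (u s) (y i)))
        (fun s _ => nsq_nonneg _) hg
    linarith
  | one =>
    refine ⟨∅, 0, le_rfl, fun n _ _ u _ h1 ι _ y ω hω _ => ?_⟩
    simp [h1, cm, nsq_eq]
  | mul g h _ _ ihg ihh =>
    obtain ⟨W₁, C₁, hC₁, H₁⟩ := ihg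
    obtain ⟨W₂, C₂, hC₂, H₂⟩ := ihh
    refine ⟨W₁ ∪ W₂ ∪ {g, h}, 4 * (C₁ + C₂ + 2), by positivity,
      fun n _ _ u hu h1 ι _ y ω hω hW => ?_⟩
    have e1 := H₁ n u hu h1 ι y ω hω fun a ha b hb => hW a (by simp [ha]) b (by simp [hb])
    have e2 := H₂ n u hu h1 ι y ω hω fun a ha b hb => hW a (by simp [ha]) b (by simp [hb])
    obtain ⟨e3, e4⟩ := hW g (by simp) h (by simp)
    have hE : 0 ≤ ∑ i, en u T (y i) :=
      Finset.sum_nonneg fun i _ => Finset.sum_nonneg fun s _ => nsq_nonneg _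
    have key : ∀ i, nsq (cm (u (g * h)) (y i)) ≤ 4 * (nsq (df u g h * y i) + nsq (cm (u h) (y i))
        + nsq (cm (u g) (y i)) + nsq (y i * df u g h)) := by
      intro i
      have e : cm (u (g * h)) (y i) = -(df u g h * y i) + u g * cm (u h) (y i)
          + cm (u g) (y i) * u h + y i * df u g h := by
        simp only [cm, df]; noncomm_ring
      rw [e]
      refine (nsq_add4_le _ _ _ _).trans (le_of_eq ?_)
      rw [nsq_neg, nsq_U_mul (hu g), nsq_mul_U (hu h)]
    refine (Finset.sum_le_sum fun i _ => key i).trans ?_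
    rw [← Finset.mul_sum]
    simp only [Finset.sum_add_distrib]
    nlinarith
  | inv g _ ihg =>
    obtain ⟨W₁, C₁, hC₁, H₁⟩ := ihg
    refine ⟨W₁ ∪ {g, g⁻¹}, 4 * (C₁ + 2), by positivity,
      fun n _ _ u hu h1 ι _ y ω hω hW => ?_⟩
    have e1 := H₁ n u hu h1 ι y ω hω fun a ha b hb => hW a (by simp [ha]) b (by simp [hb])
    obtain ⟨e3, -⟩ := hW g (by simp) g⁻¹ (by simp)
    obtain ⟨-, e4⟩ := hW g⁻¹ (by simp) g (by simp)
    have hE : 0 ≤ ∑ i, en u T (y i) :=
      Finset.sum_nonneg fun i _ => Finset.sum_nonneg fun s _ => nsq_nonneg _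
    have key : ∀ i, nsq (cm (u g⁻¹) (y i)) ≤ 4 * (nsq (df u g g⁻¹ * y i) + nsq (cm (u g) (y i))
        + nsq (y i * df u g⁻¹ g)) := by
      intro i
      have e : u g * (cm (u g⁻¹) (y i) * u g) = df u g g⁻¹ * y i * u g + -(cm (u g) (y i))
          + -(u g * (y i * df u g⁻¹ g)) + 0 := by
        simp only [cm, df, mul_inv_cancel, inv_mul_cancel, h1]; noncomm_ring
      rw [← nsq_mul_U (hu g), ← nsq_U_mul (hu g), e]
      refine (nsq_add4_le _ _ _ _).trans (le_of_eq ?_)
      rw [nsq_neg, nsq_neg, nsq_U_mul (hu g), nsq_mul_U (hu g)]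
      simp [nsq_eq]
    refine (Finset.sum_le_sum fun i _ => key i).trans ?_
    rw [← Finset.mul_sum]
    simp only [Finset.sum_add_distrib]
    nlinarith

/-- approximate representations with arbitrarily small defect and trace bound `t` -/
def Q (G : Type) [Group G] (W : Finset G) (t : ℝ) : Prop :=
  ∀ δ : ℝ, 0 < δ →
    ∃ (n : Type) (_ : Fintype n) (_ : DecidableEq n) (_ : Nonempty n) (u : G → Mat n),
      (∀ g, IsU (u g)) ∧ u 1 = 1 ∧
      ∀ g ∈ W, ∀ h ∈ W, nsq (df u g h) ≤ δ * Fintype.card n ∧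
        (g ≠ h → ‖trace ((u g)ᴴ * u h)‖ ≤ t * Fintype.card n)

theorem Q_sq {G : Type} [Group G] {W : Finset G} {t : ℝ} (h : Q G W t) : Q G W (t ^ 2) := by
  intro δ hδ
  obtain ⟨n, _, _, _, u, hu, h1, H⟩ := h (δ / 4) (by positivity)
  refine ⟨n × n, inferInstance, inferInstance, inferInstance, fun g => u g ⊗ₖ u g,
    fun g => IsU_kron (hu g), by simp only [h1, one_kronecker_one], fun g hg h hh => ?_⟩
  obtain ⟨H1, H2⟩ := H g hg h hh
  have hc : (0 : ℝ) ≤ Fintype.card n := by positivity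
  constructor
  · have e : df (fun g => (u g ⊗ₖ u g : Mat (n × n))) g h
        = df u g h ⊗ₖ (u g * u h) + u (g * h) ⊗ₖ df u g h := by
      simp only [df]
      rw [← mul_kronecker_mul]
      ext ⟨i, j⟩ ⟨k, l⟩
      simp only [Matrix.sub_apply, Matrix.add_apply, kroneckerMap_apply]
      ring
    rw [e]
    refine (nsq_add_le _ _).trans ?_
    rw [nsq_kron, nsq_kron, nsq_U (IsU_mul (hu g) (hu h)), nsq_U (hu _), Fintype.card_prod]
    push_cast
    nlinarith
  · intro hne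
    have h3 := H2 hne
    rw [conjTranspose_kronecker, ← mul_kronecker_mul, trace_kronecker, norm_mul, Fintype.card_prod]
    push_cast
    calc _ ≤ (t * Fintype.card n) * (t * Fintype.card n) :=
          mul_le_mul h3 h3 (norm_nonneg _) ((norm_nonneg _).trans h3)
      _ = _ := by ring

theorem Q_base {G : Type} [Group G] (hG : IsHyp G) (W : Finset G) : Q G W (19 / 20) := by
  classical
  intro δ hδ
  set A : Finset G := insert 1 (W ∪ (W ×ˢ W).image (fun p => p.1 * p.2) ∪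
    (W ×ˢ W).image (fun p => p.1⁻¹ * p.2)) with hA
  have hW : ∀ g ∈ W, g ∈ A := fun g hg => by simp [hA, hg]
  have hWW : ∀ g ∈ W, ∀ h ∈ W, g * h ∈ A := fun g hg h hh =>
    Finset.mem_insert_of_mem (Finset.mem_union_left _ (Finset.mem_union_right _
      (Finset.mem_image.2 ⟨(g, h), Finset.mem_product.2 ⟨hg, hh⟩, rfl⟩)))
  have hWi : ∀ g ∈ W, ∀ h ∈ W, g⁻¹ * h ∈ A := fun g hg h hh =>
    Finset.mem_insert_of_mem (Finset.mem_union_right _
      (Finset.mem_image.2 ⟨(g, h), Finset.mem_product.2 ⟨hg, hh⟩, rfl⟩))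
  set d : ℝ := min δ (1 / 10) with hd
  have hd0 : 0 < d := lt_min hδ (by norm_num)
  obtain ⟨n, hn, φ, h1, hm, hs⟩ := hG A (Finset.mem_insert_self _ _) (Real.sqrt d)
    (Real.sqrt_pos.2 hd0)
  have hn' : (0 : ℝ) < n := by exact_mod_cast hn
  have hU : ∀ g, IsU (φ g).1 := fun g =>
    ⟨Matrix.mem_unitaryGroup_iff'.1 (φ g).2, Matrix.mem_unitaryGroup_iff.1 (φ g).2⟩
  have hm' : ∀ a ∈ A, ∀ b ∈ A, a * b ∈ A → nsq ((φ (a * b)).1 - (φ a).1 * (φ b).1) ≤ d * n := by
    intro a ha b hb hab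
    have := (Real.sqrt_lt_sqrt_iff (div_nonneg (nsq_nonneg _) hn'.le)).1 (hm a ha b hb hab)
    rw [div_lt_iff₀ hn'] at this
    exact this.le
  have hs' : ∀ a ∈ A, a ≠ 1 → (n : ℝ) ≤ nsq ((φ a).1 - 1) := by
    intro a ha hne
    have := hs a ha hne
    rw [Real.one_le_sqrt, le_div_iff₀ hn', one_mul] at this
    exact this
  have : Nonempty (Fin n) := ⟨⟨0, hn⟩⟩
  refine ⟨Fin n ⊕ Fin n, inferInstance, inferInstance, inferInstance,
    fun g => fromBlocks (φ g).1 0 0 1, fun g => ?_, ?_, fun g hg h hh => ⟨?_, fun hne => ?_⟩⟩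
  · constructor
    · rw [fromBlocks_conjTranspose, fromBlocks_multiply]
      simp [(hU g).1]
    · rw [fromBlocks_conjTranspose, fromBlocks_multiply]
      simp [(hU g).2]
  · simp [h1]
  · have e : df (fun g => (fromBlocks (φ g).1 0 0 1 : Mat (Fin n ⊕ Fin n))) g h
        = fromBlocks ((φ g).1 * (φ h).1 - (φ (g * h)).1) 0 0 0 := by
      simp only [df]
      rw [fromBlocks_multiply]
      ext (i | i) (j | j) <;> simp
    have e2 : nsq (fromBlocks ((φ g).1 * (φ h).1 - (φ (g * h)).1) 0 0 0 : Mat (Fin n ⊕ Fin n))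
        = nsq ((φ g).1 * (φ h).1 - (φ (g * h)).1) := by
      simp [nsq_eq, Fintype.sum_sum_type]
    rw [e, e2, nsq_sub_comm]
    refine (hm' g (hW g hg) h (hW h hh) (hWW g hg h hh)).trans ?_
    simp only [Fintype.card_sum, Fintype.card_fin]
    push_cast
    have : d ≤ δ := min_le_left _ _
    nlinarith
  · set v : Mat (Fin n) := ((φ g).1)ᴴ * (φ h).1 with hv
    have hvU : IsU v := IsU_mul (IsU_star (hU g)) (hU h)
    have e : trace ((fromBlocks (φ g).1 0 0 1 : Mat (Fin n ⊕ Fin n))ᴴ *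
        (fromBlocks (φ h).1 0 0 1 : Mat (Fin n ⊕ Fin n))) = trace v + n := by
      rw [fromBlocks_conjTranspose, fromBlocks_multiply]
      simp [trace, Fintype.sum_sum_type, hv]
    have hk : g⁻¹ * h ≠ 1 := fun h' => hne (inv_mul_eq_one.1 h')
    have a1 := hs' _ (hWi g hg h hh) hk
    have a2 := hm' g (hW g hg) (g⁻¹ * h) (hWi g hg h hh) (by simpa using hW h hh)
    rw [mul_inv_cancel_left] at a2
    have a3 : nsq ((φ (g⁻¹ * h)).1 - v) ≤ d * n := by
      rw [← nsq_U_mul (hU g), Matrix.mul_sub, hv, ← Matrix.mul_assoc, (hU g).2, Matrix.one_mul,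
        nsq_sub_comm]
      exact a2
    have a4 := nsq_add_le ((φ (g⁻¹ * h)).1 - v) (v - 1)
    rw [sub_add_sub_cancel, nsq_sub_one hvU] at a4
    have a5 := norm_trace_le hvU
    simp only [Fintype.card_fin] at a4 a5
    have a6 : d ≤ 1 / 10 := min_le_right _ _
    have a7 : (trace v).re ≤ 4 / 5 * n := by nlinarith
    rw [e]
    simp only [Fintype.card_sum, Fintype.card_fin]
    push_cast
    refine (pow_le_pow_iff_left₀ (norm_nonneg _) (by positivity) two_ne_zero).1 ?_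
    have a8 : ‖trace v‖ ^ 2 ≤ (n : ℝ) ^ 2 := pow_le_pow_left₀ (norm_nonneg _) a5 2
    rw [Complex.sq_norm, Complex.normSq_apply] at a8 ⊢
    simp only [Complex.add_re, Complex.add_im, Complex.natCast_re, Complex.natCast_im, add_zero]
    nlinarith

theorem am : S_AM := by
  intro G _ hG W δ ε hδ hε
  have hk : ∀ k : ℕ, Q G W ((19 / 20 : ℝ) ^ (2 ^ k)) := by
    intro k
    induction k with
    | zero => simpa using Q_base hG W
    | succ k ih => rw [pow_succ, pow_mul]; exact Q_sq ih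
  obtain ⟨k, hk'⟩ := exists_pow_lt_of_lt_one hε (by norm_num : (19 / 20 : ℝ) < 1)
  have h2 : (19 / 20 : ℝ) ^ (2 ^ k) ≤ ε :=
    (pow_le_pow_of_le_one (by norm_num) (by norm_num) (Nat.lt_two_pow_self).le).trans hk'.le
  obtain ⟨n, i1, i2, i3, u, hu, h1, H⟩ := hk k δ hδ
  refine ⟨n, i1, i2, i3, u, hu, h1, fun g hg h hh => ⟨(H g hg h hh).1, fun hne => ?_⟩⟩
  refine (Complex.re_le_norm _).trans (((H g hg h hh).2 hne).trans ?_)
  exact mul_le_mul_of_nonneg_right h2 (by positivity)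

end Pool.Agent.H411Z.NH
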